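import Pool.Agent.Helper21.MT9.Stmts

/-!
# The components in `Q₊ ⊗ R` (module CMP of T9)
-/

set_option autoImplicit false

open Matrix

namespace MT

namespace Cmp

variable {K : Type} [Field K] {n : ℕ}

/-- diagonal indicator matrices -/
def dg (p : Fin n → Prop) [DecidablePred p] : Matrix (Fin n) (Fin n) K :=
  Matrix.diagonal fun j => if p j then 1 else 0

theorem dg_mul (p : Fin n → Prop) [DecidablePred p] (A : Matrix (Fin n) (Fin n) K) (i j : Fin n) :
    ((dg p : Matrix (Fin n) (Fin n) K) * A) i j = if p i then A i j else 0 := by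
  simp [dg, Matrix.diagonal_mul]

theorem mul_dg (p : Fin n → Prop) [DecidablePred p] (A : Matrix (Fin n) (Fin n) K) (i j : Fin n) :
    (A * (dg p : Matrix (Fin n) (Fin n) K)) i j = if p j then A i j else 0 := by
  simp [dg, Matrix.mul_diagonal]

theorem dg_T (p : Fin n → Prop) [DecidablePred p] :
    (dg p : Matrix (Fin n) (Fin n) K).transpose = dg p := by
  simp [dg]

/-- two diagonal indicators intertwined by a matrix -/
theorem inter (p q : Fin n → Prop) [DecidablePred p] [DecidablePred q]
    (A : Matrix (Fin n) (Fin n) K) (h : ∀ i j, A i j ≠ 0 → (p i ↔ q j)) :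
    dg p * A = A * dg q := by
  ext i j
  rw [dg_mul, mul_dg]
  by_cases hA : A i j = 0
  · simp [hA]
  · have := h i j hA
    by_cases hq : q j
    · rw [if_pos (this.2 hq), if_pos hq]
    · rw [if_neg (fun hp => hq (this.1 hp)), if_neg hq]

theorem dg_dg0 (p q : Fin n → Prop) [DecidablePred p] [DecidablePred q]
    (h : ∀ i, ¬ (p i ∧ q i)) : (dg p * dg q : Matrix (Fin n) (Fin n) K) = 0 := by
  ext i j
  rw [dg_mul]
  by_cases hp : p i
  · rw [if_pos hp]
    by_cases hij : i = j
    · subst hij
      have : ¬ q i := fun hq => h i ⟨hp, hq⟩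
      simp [dg, this]
    · simp [dg, Matrix.diagonal_apply_ne _ hij]
  · simp [hp]

theorem dg_idem (p : Fin n → Prop) [DecidablePred p] :
    (dg p * dg p : Matrix (Fin n) (Fin n) K) = dg p := by
  ext i j
  rw [dg_mul]
  by_cases hij : i = j
  · subst hij
    by_cases hp : p i <;> simp [dg, hp]
  · simp [dg, Matrix.diagonal_apply_ne _ hij]

/-- transfer of the intertwining to the inverse -/
theorem inter_inv (p q : Fin n → Prop) [DecidablePred p] [DecidablePred q]
    (ψ : Matrix (Fin n) (Fin n) K) (hψ : ψ.det ≠ 0) (h : dg p * ψ = ψ * dg q) :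
    dg q * ψ⁻¹ = ψ⁻¹ * dg p := by
  have hu : IsUnit ψ.det := isUnit_iff_ne_zero.2 hψ
  calc dg q * ψ⁻¹ = (ψ⁻¹ * ψ) * dg q * ψ⁻¹ := by rw [Matrix.nonsing_inv_mul _ hu, Matrix.one_mul]
    _ = ψ⁻¹ * (ψ * dg q) * ψ⁻¹ := by rw [Matrix.mul_assoc ψ⁻¹ ψ]
    _ = ψ⁻¹ * (dg p * ψ) * ψ⁻¹ := by rw [h]
    _ = ψ⁻¹ * dg p * (ψ * ψ⁻¹) := by simp only [Matrix.mul_assoc]
    _ = ψ⁻¹ * dg p := by rw [Matrix.mul_nonsing_inv _ hu, Matrix.mul_one]

/-- `Y - ψ⁻¹ Yᵀ ψ` for `Y = T A r` -/
noncomputable def W (ψ r T A : Matrix (Fin n) (Fin n) K) : Matrix (Fin n) (Fin n) K :=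
  T * A * r - ψ⁻¹ * (T * A * r).transpose * ψ

theorem W_add (ψ r T T' A : Matrix (Fin n) (Fin n) K) :
    W ψ r (T + T') A = W ψ r T A + W ψ r T' A := by
  unfold W
  rw [Matrix.add_mul, Matrix.add_mul, Matrix.transpose_add, Matrix.mul_add, Matrix.add_mul]
  abel

theorem W_smul (ψ r T A : Matrix (Fin n) (Fin n) K) (c : K) :
    W ψ r (c • T) A = c • W ψ r T A := by
  unfold W
  rw [Matrix.smul_mul, Matrix.smul_mul, Matrix.transpose_smul, Matrix.mul_smul, Matrix.smul_mul,
    smul_sub]

end Cmp

open Cmp in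
/-- The components in `Q₊ ⊗ R`. -/
theorem st_CMP (hKIR : ST_KIR) : ST_CMP := by
  intro K _ _ _ n ε ψ d N a H A hA x y hx hy
  classical
  have hu : IsUnit ψ.det := isUnit_iff_ne_zero.2 H.unit
  have hN := H.pos
  set t : Matrix (Fin n) (Fin n) K := dg fun j => d j = N with ht
  set b : Matrix (Fin n) (Fin n) K := dg fun j => d j = -N with hb
  set r : Matrix (Fin n) (Fin n) K := dg fun j => |d j| < N with hr
  have rr : r * r = r := dg_idem _
  have tt : t * t = t := dg_idem _
  have tr : t * r = 0 := dg_dg0 _ _ fun i h => by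
    obtain ⟨h1, h2⟩ := h
    rw [h1, abs_lt] at h2; omega
  have rt : r * t = 0 := dg_dg0 _ _ fun i h => by
    obtain ⟨h2, h1⟩ := h
    rw [h1, abs_lt] at h2; omega
  have bt : b * t = 0 := dg_dg0 _ _ fun i h => by
    obtain ⟨h1, h2⟩ := h
    omega
  have rb : r * b = 0 := dg_dg0 _ _ fun i h => by
    obtain ⟨h2, h1⟩ := h
    rw [h1, abs_lt] at h2; omega
  have tbr : t + b + r = 1 := by
    ext i j
    by_cases hij : i = j
    · subst hij
      have hd := H.bd i
      rw [abs_le] at hd
      simp only [ht, hb, hr, dg, Matrix.add_apply, Matrix.diagonal_apply_eq, Matrix.one_apply_eq]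
      by_cases h1 : d i = N
      · have h2 : ¬ d i = -N := by omega
        have h3 : ¬ |d i| < N := by rw [abs_lt]; omega
        rw [if_pos h1, if_neg h2, if_neg h3, add_zero, add_zero]
      · by_cases h2 : d i = -N
        · have h3 : ¬ |d i| < N := by rw [abs_lt]; omega
          rw [if_neg h1, if_pos h2, if_neg h3, add_zero, zero_add]
        · have h3 : |d i| < N := by rw [abs_lt]; omega
          rw [if_neg h1, if_neg h2, if_pos h3, zero_add, zero_add]
    · simp [ht, hb, hr, dg, Matrix.diagonal_apply_ne _ hij, Matrix.one_apply_ne hij]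
  have rψ : r * ψ = ψ * r := inter _ _ _ fun i j h => by
    have := H.grad i j h
    simp only [abs_lt]
    omega
  have bψ : b * ψ = ψ * t := inter _ _ _ fun i j h => by
    have := H.grad i j h
    omega
  have tψ : t * ψ = ψ * b := inter _ _ _ fun i j h => by
    have := H.grad i j h
    omega
  have rψ' : r * ψ⁻¹ = ψ⁻¹ * r := inter_inv _ _ _ H.unit rψ
  have tψ' : t * ψ⁻¹ = ψ⁻¹ * b := inter_inv _ _ _ H.unit bψ
  have bψ' : b * ψ⁻¹ = ψ⁻¹ * t := inter_inv _ _ _ H.unit tψ
  have tT : t.transpose = t := dg_T _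
  have bT : b.transpose = b := dg_T _
  have rT : r.transpose = r := dg_T _
  -- the elements of `a` are skew
  have skew : ∀ B ∈ a, ψ⁻¹ * B.transpose * ψ = -B := by
    intro B hB
    have h := H.iso B hB
    have h' : B.transpose * ψ = -(ψ * B) := eq_neg_of_add_eq_zero_left h
    rw [Matrix.mul_assoc, h', Matrix.mul_neg, ← Matrix.mul_assoc, Matrix.nonsing_inv_mul _ hu,
      Matrix.one_mul]
  -- the predicate
  let P : Matrix (Fin n) (Fin n) K → Prop := fun T => t * T = T ∧ T * t = T ∧
    ∀ B ∈ a, b * B = 0 → B * t = 0 → t * B * b = 0 → W ψ r T B ∈ a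
  have hPall : ∀ T : Matrix (Fin n) (Fin n) K, (∀ i j, T i j ≠ 0 → d i = N ∧ d j = N) → P T := by
    refine hKIR K n ε ψ d N a H P ?_ ?_ ?_ ?_
    · rintro T T' ⟨h1, h2, h3⟩ ⟨h1', h2', h3'⟩
      refine ⟨by rw [Matrix.mul_add, h1, h1'], by rw [Matrix.add_mul, h2, h2'], ?_⟩
      intro B hB hb1 hb2 hb3
      rw [W_add]
      exact a.add_mem (h3 B hB hb1 hb2 hb3) (h3' B hB hb1 hb2 hb3)
    · rintro c T ⟨h1, h2, h3⟩
      refine ⟨by rw [Matrix.mul_smul, h1], by rw [Matrix.smul_mul, h2], ?_⟩
      intro B hB hb1 hb2 hb3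
      rw [W_smul]
      exact a.smul_mem c (h3 B hB hb1 hb2 hb3)
    · rintro T T' ⟨h1, h2, h3⟩ ⟨h1', h2', h3'⟩
      refine ⟨by rw [← Matrix.mul_assoc, h1], by rw [Matrix.mul_assoc, h2'], ?_⟩
      intro B hB hb1 hb2 hb3
      have hW := h3' B hB hb1 hb2 hb3
      set Y := T' * B * r with hY
      have hYt : Y * t = 0 := by rw [hY, Matrix.mul_assoc, rt, Matrix.mul_zero]
      have hYb : Y * b = 0 := by rw [hY, Matrix.mul_assoc, rb, Matrix.mul_zero]
      have hbY : b * Y = 0 := by
        rw [hY, ← h1', ← Matrix.mul_assoc, ← Matrix.mul_assoc, ← Matrix.mul_assoc, bt]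
        simp
      have hWd : W ψ r T' B = Y - ψ⁻¹ * Y.transpose * ψ := rfl
      have e1 : b * W ψ r T' B = 0 := by
        rw [hWd, Matrix.mul_sub, hbY, ← Matrix.mul_assoc, ← Matrix.mul_assoc, bψ',
          Matrix.mul_assoc ψ⁻¹ t, ← tT, ← Matrix.transpose_mul, hYt]
        simp
      have e2 : W ψ r T' B * t = 0 := by
        rw [hWd, Matrix.sub_mul, hYt, Matrix.mul_assoc, ← bψ, Matrix.mul_assoc ψ⁻¹,
          ← Matrix.mul_assoc Y.transpose, ← bT, ← Matrix.transpose_mul, hbY]
        simp
      have e3 : t * W ψ r T' B * b = 0 := by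
        rw [hWd, Matrix.mul_sub, Matrix.sub_mul, Matrix.mul_assoc t Y, hYb, ← Matrix.mul_assoc,
          ← Matrix.mul_assoc, tψ', Matrix.mul_assoc ψ⁻¹ b,
          show b * Y.transpose = (Y * b).transpose by rw [Matrix.transpose_mul Y b, bT], hYb]
        simp
      have h4 := h3 (W ψ r T' B) hW e1 e2 e3
      have e4 : T * W ψ r T' B * r = T * T' * B * r := by
        rw [hWd, Matrix.mul_sub, Matrix.sub_mul]
        have z : T * (ψ⁻¹ * Y.transpose * ψ) * r = 0 := by
          have : Y.transpose = r * (T' * B).transpose := by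
            rw [hY, Matrix.transpose_mul, rT]
          rw [this, ← Matrix.mul_assoc ψ⁻¹, ← rψ', ← h2]
          simp only [← Matrix.mul_assoc]
          rw [Matrix.mul_assoc T t r, tr]
          simp
        rw [z, sub_zero, hY]
        simp only [Matrix.mul_assoc]
        rw [rr]
      unfold W at h4 ⊢
      rw [show T * (T' * B * r - ψ⁻¹ * (T' * B * r).transpose * ψ) * r = T * T' * B * r from e4]
        at h4
      exact h4
    · intro κ hκ hκ0 hκR
      have hdeg : ∀ i j, κ i j ≠ 0 → d i = d j := by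
        intro i j hij
        by_contra hne
        apply hij
        rw [← hκ0]
        simp only [cmp, Matrix.of_apply]
        rw [if_neg]
        omega
      have hκt : (Matrix.of fun i j => if d i = N then κ i j else 0) = t * κ := by
        ext i j
        rw [ht, dg_mul]
        rfl
      have tκ : t * κ = κ * t := inter _ _ _ fun i j h => by rw [hdeg i j h]
      have bκ : b * κ = κ * b := inter _ _ _ fun i j h => by rw [hdeg i j h]
      have rκ : r * κ = 0 := by
        ext i j
        rw [hr, dg_mul]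
        by_cases h : |d i| < N
        · rw [if_pos h, hκR i j h]; rfl
        · rw [if_neg h]; rfl
      rw [hκt]
      refine ⟨by rw [← Matrix.mul_assoc, tt], by rw [tκ, Matrix.mul_assoc, tt], ?_⟩
      intro B hB hb1 hb2 hb3
      have f1 : t * κ * B = κ * B := by
        have : κ * B = (t + b + r) * κ * B := by rw [tbr, Matrix.one_mul]
        rw [this, Matrix.add_mul, Matrix.add_mul, Matrix.add_mul, Matrix.add_mul, rκ, bκ,
          Matrix.mul_assoc κ b, hb1]
        simp
      have f2 : t * κ * B * r = κ * B := by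
        have e : t * κ * B = t * κ * B * (t + b + r) := by rw [tbr, Matrix.mul_one]
        have e1 : t * κ * B * t = 0 := by rw [Matrix.mul_assoc, hb2, Matrix.mul_zero]
        have e2 : t * κ * B * b = 0 := by
          rw [tκ, Matrix.mul_assoc, Matrix.mul_assoc, ← Matrix.mul_assoc t, hb3, Matrix.mul_zero]
        rw [Matrix.mul_add, Matrix.mul_add, e1, e2, zero_add, zero_add] at e
        rw [← e, f1]
      have f3 : W ψ r (t * κ) B = κ * B - B * κ := by
        unfold W
        rw [f2, Matrix.transpose_mul]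
        have e : ψ⁻¹ * (B.transpose * κ.transpose) * ψ = B * κ := by
          have e' : ψ⁻¹ * (B.transpose * κ.transpose) * ψ =
              (ψ⁻¹ * B.transpose * ψ) * (ψ⁻¹ * κ.transpose * ψ) := by
            have : ψ * ψ⁻¹ = 1 := Matrix.mul_nonsing_inv _ hu
            calc ψ⁻¹ * (B.transpose * κ.transpose) * ψ
                = ψ⁻¹ * B.transpose * 1 * κ.transpose * ψ := by
                  simp only [Matrix.mul_assoc, Matrix.mul_one]
              _ = ψ⁻¹ * B.transpose * (ψ * ψ⁻¹) * κ.transpose * ψ := by rw [this]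
              _ = _ := by simp only [Matrix.mul_assoc]
          rw [e', skew B hB, skew κ hκ, neg_mul_neg]
        rw [e]
      rw [f3]
      exact H.brk κ hκ B hB
  -- the component of degrees between `0` and `2 N`
  set A' : Matrix (Fin n) (Fin n) K := ∑ j ∈ Finset.Ioo 0 (2 * N), cmp d j A with hA'
  have hA'a : A' ∈ a := Submodule.sum_mem _ fun j _ => H.comp A hA j
  have hA'e : ∀ i k, A' i k = if 0 < d i - d k ∧ d i - d k < 2 * N then A i k else 0 := by
    intro i k
    rw [hA', Matrix.sum_apply]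
    simp only [cmp, Matrix.of_apply]
    rw [Finset.sum_ite_eq]
    simp only [Finset.mem_Ioo]
  have p1 : b * A' = 0 := by
    ext i k
    rw [hb, dg_mul]
    have := H.bd k
    rw [abs_le] at this
    by_cases h : d i = -N
    · rw [if_pos h, hA'e, if_neg]
      · rfl
      · omega
    · rw [if_neg h]; rfl
  have p2 : A' * t = 0 := by
    ext i k
    rw [ht, mul_dg]
    have := H.bd i
    rw [abs_le] at this
    by_cases h : d k = N
    · rw [if_pos h, hA'e, if_neg]
      · rfl
      · omega
    · rw [if_neg h]; rfl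
  have p3 : t * A' * b = 0 := by
    ext i k
    rw [hb, mul_dg, ht, dg_mul]
    by_cases h : d k = -N
    · rw [if_pos h]
      by_cases h' : d i = N
      · rw [if_pos h', hA'e, if_neg]
        · rfl
        · omega
      · rw [if_neg h']; rfl
    · rw [if_neg h]; rfl
  have hinn : inn d N (A.mulVec y) = inn d N (A'.mulVec y) := by
    funext i
    simp only [inn]
    by_cases h : |d i| < N
    · rw [if_pos h, if_pos h]
      simp only [Matrix.mulVec, dotProduct]
      apply Finset.sum_congr rfl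
      intro k _
      by_cases hk : y k = 0
      · simp [hk]
      · have h1 := hy k hk
        rw [abs_lt] at h
        rw [hA'e, if_pos]
        omega
    · rw [if_neg h, if_neg h]
  have hrv : ∀ v : Fin n → K, inn d N v = r.mulVec v := by
    intro v
    funext i
    rw [hr]
    simp only [inn, dg, Matrix.mulVec_diagonal]
    by_cases h : |d i| < N <;> simp [h]
  set z : Fin n → K := inn d N (A'.mulVec y) with hz
  have hP := (hPall (Matrix.vecMulVec x (ψ.mulVec y)) ?_).2.2 A' hA'a p1 p2 p3
  · have hW : W ψ r (Matrix.vecMulVec x (ψ.mulVec y)) A' = -LL ψ ε x z := by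
      have g1 : Matrix.vecMulVec x (ψ.mulVec y) * A' * r = -Matrix.vecMulVec x (ψ.mulVec z) := by
        rw [Matrix.vecMulVec_mul, Matrix.vecMulVec_mul]
        have : (ψ.mulVec y) ᵥ* A' ᵥ* r = -(ψ.mulVec z) := by
          rw [← Matrix.mulVec_transpose, ← Matrix.mulVec_transpose, rT, Matrix.mulVec_mulVec,
            Matrix.mulVec_mulVec]
          have h' : A'.transpose * ψ = -(ψ * A') := eq_neg_of_add_eq_zero_left (H.iso A' hA'a)
          rw [Matrix.mul_assoc, h', Matrix.mul_neg, ← Matrix.mul_assoc, rψ, Matrix.neg_mulVec, hz,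
            hrv, Matrix.mulVec_mulVec, Matrix.mulVec_mulVec, Matrix.mul_assoc]
        rw [this]
        ext i j
        simp [Matrix.vecMulVec_apply]
      unfold W LL
      rw [g1, Matrix.transpose_neg, Matrix.mul_neg, Matrix.neg_mul]
      have g2 : ψ⁻¹ * (Matrix.vecMulVec x (ψ.mulVec z)).transpose * ψ =
          ε • Matrix.vecMulVec z (ψ.mulVec x) := by
        rw [Matrix.transpose_vecMulVec, Matrix.mul_vecMulVec, Matrix.vecMulVec_mul,
          Matrix.mulVec_mulVec, Matrix.nonsing_inv_mul _ hu, Matrix.one_mulVec,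
          ← Matrix.mulVec_transpose, H.symm]
        ext i j
        simp [Matrix.vecMulVec_apply, Matrix.smul_mulVec]
        ring
      rw [g2]
      abel
    rw [hW] at hP
    rw [hinn]
    have := a.neg_mem hP
    rwa [neg_neg] at this
  · intro i j hij
    rw [Matrix.vecMulVec_apply] at hij
    have h1 : x i ≠ 0 := left_ne_zero_of_mul hij
    have h2 : (ψ.mulVec y) j ≠ 0 := right_ne_zero_of_mul hij
    refine ⟨hx i h1, ?_⟩
    simp only [Matrix.mulVec, dotProduct] at h2
    obtain ⟨k, _, hk⟩ := Finset.exists_ne_zero_of_sum_ne_zero h2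
    have h3 := H.grad j k (left_ne_zero_of_mul hk)
    have h4 := hy k (right_ne_zero_of_mul hk)
    omega

end MT
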